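import Pool.Agent.H30.PF.Targets
import Pool.Agent.H22.MR.Cheb

set_option autoImplicit false

open Finset Real Pool.Agent.H30.PF

namespace Pool.Agent.H12.PF

theorem S_succ (f : ℕ → ℝ) (u v : ℕ) (h : u ≤ v) :
    ∑ q ∈ (Ioc u (v + 1)).filter Nat.Prime, f q =
      ∑ q ∈ (Ioc u v).filter Nat.Prime, f q + (if (v + 1).Prime then f (v + 1) else 0) := by
  rw [Finset.sum_filter, Finset.sum_filter, Finset.sum_Ioc_succ_top h]

theorem A_le (u v : ℕ) (hu : 2 ≤ u) (h : u ≤ v) :
    ∑ q ∈ (Ioc u v).filter Nat.Prime, Real.log q / q ≤ Real.log v - Real.log u + 8 := by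
  have h1 := Pool.Agent.H22.MR.mertens_diff (u := (u : ℝ)) (x := (v : ℝ))
    (by exact_mod_cast (by omega : 1 ≤ u)) (by exact_mod_cast h)
  rw [Nat.floor_natCast, Nat.floor_natCast] at h1
  refine le_trans ?_ h1
  rw [Finset.sum_filter]
  refine Finset.sum_le_sum fun q _ => ?_
  by_cases hq : q.Prime
  · rw [if_pos hq, ArithmeticFunction.vonMangoldt_apply_prime hq]
  · rw [if_neg hq]
    exact div_nonneg ArithmeticFunction.vonMangoldt_nonneg (Nat.cast_nonneg _)

theorem step (u v : ℕ) (hu : 2 ≤ u) (h : u ≤ v) :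
    ∑ q ∈ (Ioc u v).filter Nat.Prime, (1 : ℝ) / q
      - (∑ q ∈ (Ioc u v).filter Nat.Prime, Real.log q / q) / Real.log v
      + 8 / Real.log v - Real.log (Real.log v) ≤ 8 / Real.log u - Real.log (Real.log u) := by
  induction v, h using Nat.le_induction with
  | base => simp
  | succ v hv ih =>
    refine le_trans ?_ ih
    have hA := A_le u v hu hv
    rw [S_succ _ u v hv, S_succ _ u v hv]
    set S := ∑ q ∈ (Ioc u v).filter Nat.Prime, (1 : ℝ) / q with hS
    set A := ∑ q ∈ (Ioc u v).filter Nat.Prime, Real.log q / q with hAdef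
    have hu0 : 0 < Real.log u := Real.log_pos (by exact_mod_cast (by omega : 1 < u))
    have hv1 : (1 : ℝ) < v := by exact_mod_cast (by omega : 1 < v)
    have hlv : 0 < Real.log v := Real.log_pos hv1
    have hlv' : 0 < Real.log ((v + 1 : ℕ) : ℝ) :=
      Real.log_pos (by exact_mod_cast (by omega : 1 < v + 1))
    have hle : Real.log v ≤ Real.log ((v + 1 : ℕ) : ℝ) :=
      Real.log_le_log (by linarith) (by push_cast; linarith)
    set a := Real.log v with ha
    set b := Real.log ((v + 1 : ℕ) : ℝ) with hb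
    have hd : 0 ≤ 1 / a - 1 / b := by
      have := one_div_le_one_div_of_le hlv hle
      linarith
    have e1 : (if (v + 1).Prime then (1 : ℝ) / ((v + 1 : ℕ) : ℝ) else 0) =
        (if (v + 1).Prime then b / ((v + 1 : ℕ) : ℝ) else 0) / b := by
      split_ifs
      · field_simp
      · simp
    rw [e1]
    have hlog : 1 - a / b ≤ Real.log b - Real.log a := by
      have h3 := Real.log_le_sub_one_of_pos (div_pos hlv hlv')
      rw [Real.log_div hlv.ne' hlv'.ne'] at h3
      linarith
    have h4 : A * (1 / a - 1 / b) ≤ (a + 8) * (1 / a - 1 / b) :=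
      mul_le_mul_of_nonneg_right (by linarith) hd
    have h5 : (a + 8) * (1 / a - 1 / b) = 1 - a / b + 8 / a - 8 / b := by
      field_simp
      ring
    have h6 : A * (1 / a - 1 / b) = A / a - A / b := by ring
    have h7 : ∀ δ : ℝ, (A + δ) / b = A / b + δ / b := fun δ => add_div _ _ _
    rw [h7]
    linarith

theorem mr : T_MR := by
  refine ⟨1 + 16 / Real.log 2, fun u v hu huv => ?_⟩
  have h1 := step u v hu huv
  have hA := A_le u v hu huv
  have h2 : (0 : ℝ) < Real.log 2 := Real.log_pos (by norm_num)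
  have hlu : Real.log 2 ≤ Real.log u :=
    Real.log_le_log (by norm_num) (by exact_mod_cast hu)
  have hlv : Real.log 2 ≤ Real.log v :=
    Real.log_le_log (by norm_num) (by exact_mod_cast hu.trans huv)
  have hu0 : 0 < Real.log u := by linarith
  have hv0 : 0 < Real.log v := by linarith
  rw [Real.log_div hv0.ne' hu0.ne']
  have h3 : (∑ q ∈ (Ioc u v).filter Nat.Prime, Real.log q / q) / Real.log v ≤
      1 + 8 / Real.log 2 := by
    rw [div_le_iff₀ hv0]
    have h8 : (1 + 8 / Real.log 2) * Real.log v = Real.log v + 8 * (Real.log v / Real.log 2) := by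
      ring
    have h9 : 1 ≤ Real.log v / Real.log 2 := (one_le_div h2).2 hlv
    rw [h8]
    linarith
  have h4 : 8 / Real.log u ≤ 8 / Real.log 2 := div_le_div_of_nonneg_left (by norm_num) h2 hlu
  have h5 : 0 ≤ 8 / Real.log v := by positivity
  have h6 : (16 : ℝ) / Real.log 2 = 8 / Real.log 2 + 8 / Real.log 2 := by ring
  rw [h6]
  linarith

end Pool.Agent.H12.PF
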